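import Mathlib

open Filter Topology

namespace Pool.Agent.Results.MP_efe010_an.Attractive

/-- `x` is a solution of `x_{n+1} = (α + x_{n-2}) / (A + x_n)` with nonnegative initial values;
the sequence is indexed from `0`, so `x 0, x 1, x 2` are the three initial values. -/
def IsSolution (A α : ℝ) (x : ℕ → ℝ) : Prop :=
  0 ≤ x 0 ∧ 0 ≤ x 1 ∧ 0 ≤ x 2 ∧ ∀ n, x (n + 3) = (α + x n) / (A + x (n + 2))

/-- The nonnegative equilibrium. -/
noncomputable def equil (A α : ℝ) : ℝ := (1 - A + √((1 - A) ^ 2 + 4 * α)) / 2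

/-- The upper end `α₊(A)` of the parameter range. -/
noncomputable def alphaPlus (A : ℝ) : ℝ := (2 - A + √(5 * A ^ 2 - 4 * A ^ 3)) / 2

/-- Positivity of the key polynomial. -/
lemma key_poly {e s t : ℝ} (he0 : 0 < e) (he : e ≤ 1 / 5) (hs : 0 < s) (ht : 0 ≤ t) :
    0 < ((1 - e) * (1 + (1 + e / 2 + t + s)) * (1 + e / 2 + t + s - e)
          + e * ((1 + e / 2 + t) * (1 + e / 2 + t - e)))
        * ((1 + e / 2 + t + s) * ((1 + e / 2 + t) * (1 + e / 2 + t - e))
            * ((1 + e / 2 + t + s - e) + 1)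
          - (1 - e) * ((1 + e / 2 + t) * (1 + e / 2 + t - e) + e * (1 + e / 2 + t + s))
            * (1 + e / 2 + t + s - e))
      - ((1 + e / 2 + t) * (1 + e / 2 + t - e) + (1 + e / 2 + t + s))
        * ((1 + e / 2 + t) * (1 + e / 2 + t - e) + e * (1 + e / 2 + t + s))
        * (1 + e / 2 + t + s - e) * (1 + e / 2 + t + s - e) := by
  have e2 : e ^ 2 ≤ 1 / 5 * e := by nlinarith
  have p2 : 0 < e ^ 2 := by positivity
  have e3 : e ^ 3 ≤ 1 / 5 * e ^ 2 := by nlinarith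
  have p3 : 0 < e ^ 3 := by positivity
  have e4 : e ^ 4 ≤ 1 / 5 * e ^ 3 := by nlinarith
  have p4 : 0 < e ^ 4 := by positivity
  have p5 : 0 < e ^ 5 := by positivity
  have k0 : (0:ℝ) < 2 - 10 * e + 5 * e^2 - 5/2 * e^3 + 7/8 * e^4 + 1/8 * e^5 := by linarith
  have k1 : (0:ℝ) < 10 - 34 * e + 7 * e^2 - 4 * e^3 + 11/8 * e^4 + 1/8 * e^5 := by linarith
  have k2 : (0:ℝ) < 20 - 46 * e - 2 * e^2 - 3/2 * e^3 + 1/2 * e^4 := by linarith
  have k3 : (0:ℝ) < 20 - 32 * e - 6 * e^2 := by linarith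
  have k4 : (0:ℝ) < 10 - 12 * e - 2 * e^2 := by linarith
  have k5 : (0:ℝ) < 2 - 2 * e := by linarith
  have k6 : (0:ℝ) < 5 - 21 * e + 23/2 * e^2 - 23/4 * e^3 + 15/16 * e^4 + 1/16 * e^5 := by linarith
  have k7 : (0:ℝ) < 20 - 52 * e + 13 * e^2 - 33/4 * e^3 + 3/4 * e^4 := by linarith
  have k8 : (0:ℝ) < 30 - 49 * e - 1 * e^2 - 3 * e^3 := by linarith
  have k9 : (0:ℝ) < 20 - 23 * e - 3 * e^2 := by linarith
  have k10 : (0:ℝ) < 5 - 5 * e := by linarith
  have k11 : (0:ℝ) < 4 - 14 * e + 8 * e^2 - 15/4 * e^3 + 1/4 * e^4 := by linarith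
  have k12 : (0:ℝ) < 12 - 22 * e + 5 * e^2 - 3 * e^3 := by linarith
  have k13 : (0:ℝ) < 12 - 13 * e - 1 * e^2 := by linarith
  have k14 : (0:ℝ) < 4 - 4 * e := by linarith
  have k15 : (0:ℝ) < 1 - 3 * e + 7/4 * e^2 - 3/4 * e^3 := by linarith
  have k16 : (0:ℝ) < 2 - 2 * e := by linarith
  have k17 : (0:ℝ) < 1 - 1 * e := by linarith
  have hpos : 0 < s * (2 - 10 * e + 5 * e^2 - 5/2 * e^3 + 7/8 * e^4 + 1/8 * e^5)
      + s * t * (10 - 34 * e + 7 * e^2 - 4 * e^3 + 11/8 * e^4 + 1/8 * e^5)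
      + s * t^2 * (20 - 46 * e - 2 * e^2 - 3/2 * e^3 + 1/2 * e^4)
      + s * t^3 * (20 - 32 * e - 6 * e^2)
      + s * t^4 * (10 - 12 * e - 2 * e^2)
      + s * t^5 * (2 - 2 * e)
      + s^2 * (5 - 21 * e + 23/2 * e^2 - 23/4 * e^3 + 15/16 * e^4 + 1/16 * e^5)
      + s^2 * t * (20 - 52 * e + 13 * e^2 - 33/4 * e^3 + 3/4 * e^4)
      + s^2 * t^2 * (30 - 49 * e - 1 * e^2 - 3 * e^3)
      + s^2 * t^3 * (20 - 23 * e - 3 * e^2)
      + s^2 * t^4 * (5 - 5 * e)
      + s^3 * (4 - 14 * e + 8 * e^2 - 15/4 * e^3 + 1/4 * e^4)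
      + s^3 * t * (12 - 22 * e + 5 * e^2 - 3 * e^3)
      + s^3 * t^2 * (12 - 13 * e - 1 * e^2)
      + s^3 * t^3 * (4 - 4 * e)
      + s^4 * (1 - 3 * e + 7/4 * e^2 - 3/4 * e^3)
      + s^4 * t * (2 - 2 * e)
      + s^4 * t^2 * (1 - 1 * e) := by positivity
  refine lt_of_lt_of_eq hpos ?_
  ring

/-- The product step, with all the quantities free. -/
lemma prod_step {A α E D S U y2 y3 y5 T1 T2 : ℝ} (hS : 0 < α + S) (hE : 0 < E) (hD : 0 < D)
    (h3 : y2 * (A + y3) = α + y5) (b5 : y5 ≤ S) (hU : U = A + y3)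
    (hT1 : T1 ≤ D * U) (hT2 : T2 ≤ D * E * y2) (hT1pos : 0 < T1) :
    T1 * T2 ≤ (α + S) * E * D * D := by
  have i5 : 0 < D * D * E := by positivity
  have hprod : (D * U) * (D * E * y2) ≤ (α + S) * E * D * D := by
    have e1 : (D * U) * (D * E * y2) = D * D * E * (y2 * (A + y3)) := by rw [hU]; ring
    have e2 : (α + S) * E * D * D = D * D * E * (α + S) := by ring
    rw [e1, h3, e2]
    exact mul_le_mul_of_nonneg_left (by linarith) i5.le
  rcases le_or_gt T2 0 with h | h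
  · have i6 : 0 < (α + S) * E * D * D := by positivity
    have i7 : T1 * T2 ≤ 0 := mul_nonpos_of_nonneg_of_nonpos hT1pos.le h
    linarith
  · exact (mul_le_mul hT1 hT2 h.le (hT1pos.le.trans hT1)).trans hprod

lemma T1_step {e α S I D y1 y3 : ℝ} (hS : 0 < S) (hD0 : 0 < D) (hD : D = S - e)
    (h1 : S * ((1 - e) + y1) = α + y3) (b1 : I ≤ y1) (hIS : α ≤ I * D) :
    (1 - e) * (1 + S) * D + e * α ≤ D * ((1 - e) + y3) := by
  have i1 : 0 ≤ S * D * (y1 - I) := by
    have : 0 ≤ y1 - I := by linarith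
    positivity
  have i2 : 0 ≤ S * (I * D - α) := by
    have : 0 ≤ I * D - α := by linarith
    positivity
  have i3 : D * ((1 - e) + y3) - ((1 - e) * (1 + S) * D + e * α)
      = S * D * (y1 - I) + S * (I * D - α) := by
    have : y3 = S * ((1 - e) + y1) - α := by linarith
    rw [this, hD]; ring
  linarith

lemma T2_step {e α S I D E y1 y2 y4 : ℝ} (hS : 0 < S) (hD0 : 0 < D)
    (h2 : y1 * ((1 - e) + y2) = α + y4) (hy : 0 ≤ (1 - e) + y2) (b4 : I ≤ y4)
    (hIS : α ≤ I * D) (hSy1 : S * y1 ≤ E) :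
    S * α * (D + 1) - (1 - e) * E * D ≤ D * E * y2 := by
  have i1 : S * (α + y4) ≤ E * ((1 - e) + y2) := by
    rw [← h2, ← mul_assoc]
    exact mul_le_mul_of_nonneg_right hSy1 hy
  have i2 : S * (α + I) ≤ S * (α + y4) := mul_le_mul_of_nonneg_left (by linarith) hS.le
  have i3 : D * (S * (α + I)) ≤ D * (E * ((1 - e) + y2)) :=
    mul_le_mul_of_nonneg_left (i2.trans i1) hD0.le
  have i4 : S * α * (D + 1) ≤ D * (S * (α + I)) := by
    have e1 : D * (S * (α + I)) - S * α * (D + 1) = S * (I * D - α) := by ring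
    have e2 : 0 ≤ S * (I * D - α) := mul_nonneg hS.le (by linarith)
    linarith
  have e3 : D * (E * ((1 - e) + y2)) = D * E * y2 + (1 - e) * E * D := by ring
  linarith

/-- The key inequality: the largest limit point of a solution is at most the equilibrium. -/
lemma core {e α S I y1 y2 y3 y4 y5 : ℝ} (he0 : 0 < e) (he : e ≤ 1 / 5) (hα : 1 ≤ α)
    (hS : 0 < S) (hI : 0 < I)
    (h1 : S * ((1 - e) + y1) = α + y3) (h2 : y1 * ((1 - e) + y2) = α + y4)
    (h3 : y2 * ((1 - e) + y3) = α + y5)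
    (b1 : I ≤ y1) (b2 : I ≤ y2) (b3 : y3 ≤ S) (b4 : I ≤ y4) (b5 : y5 ≤ S)
    (hIS : α ≤ I * (S - e)) : S * (S - e) ≤ α := by
  by_contra hcon
  rw [not_le] at hcon
  set x : ℝ := (e + √(e ^ 2 + 4 * α)) / 2 with hx
  have hsq : √(e ^ 2 + 4 * α) ^ 2 = e ^ 2 + 4 * α := Real.sq_sqrt (by positivity)
  have hsq2 : 2 ≤ √(e ^ 2 + 4 * α) := by
    apply Real.le_sqrt_of_sq_le
    have := sq_nonneg e
    linarith
  have hxα : x * (x - e) = α := by
    have : x * (x - e) = (√(e ^ 2 + 4 * α) ^ 2 - e ^ 2) / 4 := by rw [hx]; ring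
    rw [this, hsq]; ring
  obtain ⟨t, ht⟩ : ∃ t, t = x - (1 + e / 2) := ⟨_, rfl⟩
  have ht0 : 0 ≤ t := by rw [ht, hx]; linarith
  have hxt : x = 1 + e / 2 + t := by rw [ht]; ring
  have hSx : x < S := by
    by_contra hle
    rw [not_lt] at hle
    have h0 : 0 ≤ S - e := by
      by_contra hneg
      rw [not_le] at hneg
      have : I * (S - e) < 0 := mul_neg_of_pos_of_neg hI hneg
      linarith
    have : S * (S - e) ≤ x * (x - e) := mul_le_mul hle (by linarith) h0 (hS.le.trans hle)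
    linarith
  obtain ⟨s, hs⟩ : ∃ s, s = S - x := ⟨_, rfl⟩
  have hs0 : 0 < s := by rw [hs]; linarith
  have hSs : S = 1 + e / 2 + t + s := by rw [hs, hxt]; ring
  have hG := key_poly he0 he hs0 ht0
  rw [← hSs, ← hxt, hxα] at hG
  -- positivity facts
  obtain ⟨D, hD⟩ : ∃ D, D = S - e := ⟨_, rfl⟩
  have hD0 : 0 < D := by rw [hD, hSs]; linarith
  rw [← hD] at hG hIS
  have hSy1 : S * y1 ≤ α + e * S := by
    have : S * ((1 - e) + y1) = S - e * S + S * y1 := by ring
    linarith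
  have hαe : 0 < α + e * S := by positivity
  have T1 := T1_step hS hD0 hD h1 b1 hIS
  have T2 := T2_step hS hD0 h2 (by linarith) b4 hIS hSy1
  have T1pos : 0 < (1 - e) * (1 + S) * D + e * α := by
    have : 0 < 1 - e := by linarith
    positivity
  have hfin := prod_step (by linarith) hαe hD0 h3 b5 rfl T1 T2 T1pos
  linarith

/-- A term of a solution that is at least all the preceding ones is at most `10 α`. -/
lemma record {e α S y1 y2 y3 y4 y5 : ℝ} (he0 : 0 < e) (he : e ≤ 1 / 5) (hα : 1 ≤ α)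
    (h1 : S * ((1 - e) + y1) = α + y3) (h2 : y1 * ((1 - e) + y2) = α + y4)
    (h3 : y2 * ((1 - e) + y3) = α + y5)
    (b1 : 0 ≤ y1) (b2 : 0 ≤ y2) (b3 : y3 ≤ S) (b4 : 0 ≤ y4) (b5 : y5 ≤ S) : S ≤ 10 * α := by
  by_contra hcon
  rw [not_le] at hcon
  have hS : 0 < S := by linarith
  have hSy1 : S * y1 ≤ α + e * S := by nlinarith
  have hαe : α + e * S ≤ 3 / 10 * S := by nlinarith
  have i1 : S * α ≤ (3 / 10 * S) * ((1 - e) + y2) := by
    have : S * (α + y4) ≤ (α + e * S) * ((1 - e) + y2) := by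
      rw [← h2]
      have : 0 ≤ (1 - e) + y2 := by linarith
      nlinarith
    have h4 : (α + e * S) * ((1 - e) + y2) ≤ (3 / 10 * S) * ((1 - e) + y2) := by
      apply mul_le_mul_of_nonneg_right hαe; linarith
    nlinarith
  have i2 : 10 / 3 * α ≤ (1 - e) + y2 := by
    have : S * (10 / 3 * α) ≤ S * ((1 - e) + y2) := by linarith
    exact le_of_mul_le_mul_left this hS
  have i3 : 7 / 3 * α ≤ y2 := by linarith
  have i4 : 7 / 10 * S ≤ (1 - e) + y3 := by nlinarith
  have i5 : (7 / 3 * α) * (7 / 10 * S) ≤ y2 * ((1 - e) + y3) := by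
    apply mul_le_mul i3 i4 (by positivity) b2
  have i6 : (7 / 3 * α) * (7 / 10 * S) ≥ 49 / 30 * S := by nlinarith
  linarith


section Dynamics

variable {A α : ℝ} {x : ℕ → ℝ}

lemma sol_nonneg (hA : 0 < A) (hα : 0 < α) (hx : IsSolution A α x) : ∀ n, 0 ≤ x n := by
  obtain ⟨h0, h1, h2, hr⟩ := hx
  have key : ∀ n, 0 ≤ x n ∧ 0 ≤ x (n + 1) ∧ 0 ≤ x (n + 2) := by
    intro n
    induction n with
    | zero => exact ⟨h0, h1, h2⟩
    | succ n ih =>
      obtain ⟨a, b, c⟩ := ih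
      refine ⟨b, c, ?_⟩
      have : n + 1 + 2 = n + 3 := by ring
      rw [this, hr n]
      positivity
  exact fun n => (key n).1

lemma sol_rel (hA : 0 < A) (hα : 0 < α) (hx : IsSolution A α x) (n : ℕ) :
    x (n + 3) * (A + x (n + 2)) = α + x n := by
  have h2 := sol_nonneg hA hα hx (n + 2)
  have : A + x (n + 2) ≠ 0 := by linarith
  rw [hx.2.2.2 n, div_mul_cancel₀ _ this]

/-- An explicit bound for a solution. -/
def bd (α : ℝ) (x : ℕ → ℝ) : ℝ := 10 * α + x 0 + x 1 + x 2 + x 3 + x 4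

lemma sol_bdd (hA : 4 / 5 ≤ A) (hA1 : A < 1) (hα : 1 ≤ α) (hx : IsSolution A α x) :
    ∀ n, x n ≤ bd α x := by
  have hA0 : 0 < A := by linarith
  have hα0 : 0 < α := by linarith
  have hn := sol_nonneg hA0 hα0 hx
  have h0 := hn 0
  have h1 := hn 1
  have h2 := hn 2
  have h3 := hn 3
  have h4 := hn 4
  intro n
  induction n using Nat.strong_induction_on with
  | _ n ih =>
    rcases lt_or_ge n 5 with h | h
    · interval_cases n <;> unfold bd <;> linarith
    · obtain ⟨m, rfl⟩ : ∃ m, n = m + 5 := ⟨n - 5, by omega⟩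
      by_contra hcon
      rw [not_le] at hcon
      have e1 : x (m + 5) * (A + x (m + 4)) = α + x (m + 2) := sol_rel hA0 hα0 hx (m + 2)
      have e2 : x (m + 4) * (A + x (m + 3)) = α + x (m + 1) := sol_rel hA0 hα0 hx (m + 1)
      have e3 : x (m + 3) * (A + x (m + 2)) = α + x m := sol_rel hA0 hα0 hx m
      have b3 := ih (m + 2) (by omega)
      have b5 := ih m (by omega)
      have hrec := record (e := 1 - A) (by linarith) (by linarith) hα
        (by rw [sub_sub_cancel]; exact e1) (by rw [sub_sub_cancel]; exact e2)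
        (by rw [sub_sub_cancel]; exact e3) (hn _) (hn _) (by linarith) (hn _) (by linarith)
      have : 10 * α ≤ bd α x := by unfold bd; linarith
      linarith

lemma mapCluster_shift (k : ℕ) {c : ℝ} :
    MapClusterPt c atTop (fun m => x (m + k)) ↔ MapClusterPt c atTop x := by
  have h : map (fun m => x (m + k)) atTop = map x atTop := by
    have : (fun m => x (m + k)) = x ∘ (fun m => m + k) := rfl
    rw [this, ← Filter.map_map, Filter.map_add_atTop_eq_nat]
  unfold MapClusterPt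
  rw [h]

theorem attract (hA : 4 / 5 ≤ A) (hA1 : A < 1) (hα : 1 ≤ α) (hx : IsSolution A α x) :
    Tendsto x atTop (𝓝 (equil A α)) := by
  have hA0 : 0 < A := by linarith
  have hα0 : 0 < α := by linarith
  have hn := sol_nonneg hA0 hα0 hx
  have hb := sol_bdd hA hA1 hα hx
  set B := bd α x
  have hK : IsCompact (Set.Icc (0 : ℝ) B) := isCompact_Icc
  have hmem : ∀ᶠ n in atTop, x n ∈ Set.Icc (0 : ℝ) B :=
    Eventually.of_forall fun n => ⟨hn n, hb n⟩
  -- the set of cluster points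
  set Cl : Set ℝ := {c | MapClusterPt c atTop x} with hCl
  have hClK : Cl ⊆ Set.Icc (0 : ℝ) B := by
    intro c hc
    exact isClosed_Icc.mem_of_mapClusterPt hc hmem
  have hClc : IsClosed Cl := isClosed_setOfPred_clusterPt
  have hClcomp : IsCompact Cl := hK.of_isClosed_subset hClc hClK
  have hClne : Cl.Nonempty := by
    obtain ⟨c, _, hc⟩ := hK.exists_mapClusterPt_of_frequently hmem.frequently
    exact ⟨c, hc⟩
  obtain ⟨S, hS, hSmax⟩ := hClcomp.exists_isGreatest hClne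
  obtain ⟨I, hI, hImin⟩ := hClcomp.exists_isLeast hClne
  -- limits along an ultrafilter
  have hlim : ∀ c ∈ Cl, ∃ (U : Ultrafilter ℕ) (y : ℕ → ℝ), y 5 = c ∧
      (∀ j, Tendsto (fun m => x (m + j)) U (𝓝 (y j))) ∧ ∀ j, I ≤ y j ∧ y j ≤ S := by
    intro c hc
    have hc5 : MapClusterPt c atTop (fun m => x (m + 5)) := (mapCluster_shift 5).mpr hc
    obtain ⟨U, hU, hUc⟩ := mapClusterPt_iff_ultrafilter.mp hc5
    have hex : ∀ j : ℕ, ∃ z, Tendsto (fun m => x (m + j)) U (𝓝 z) := by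
      intro j
      obtain ⟨z, _, hz⟩ := hK.ultrafilter_le_nhds (U.map (fun m => x (m + j))) (by
        rw [le_principal_iff, Ultrafilter.mem_coe, Ultrafilter.mem_map]
        exact Filter.mem_of_superset Filter.univ_mem fun m _ => ⟨hn (m + j), hb (m + j)⟩)
      exact ⟨z, hz⟩
    choose y hy using hex
    refine ⟨U, y, tendsto_nhds_unique (hy 5) hUc, hy, fun j => ?_⟩
    have hyC : y j ∈ Cl := by
      have : MapClusterPt (y j) atTop (fun m => x (m + j)) :=
        mapClusterPt_iff_ultrafilter.mpr ⟨U, hU, hy j⟩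
      exact (mapCluster_shift j).mp this
    exact ⟨hImin hyC, hSmax hyC⟩
  have hrel : ∀ (U : Ultrafilter ℕ) (y : ℕ → ℝ), (∀ j, Tendsto (fun m => x (m + j)) U (𝓝 (y j))) →
      ∀ j, y (j + 3) * (A + y (j + 2)) = α + y j := by
    intro U y hy j
    have h1 : Tendsto (fun m => x (m + (j + 3)) * (A + x (m + (j + 2)))) U
        (𝓝 (y (j + 3) * (A + y (j + 2)))) := (hy (j + 3)).mul ((hy (j + 2)).const_add A)
    have h2 : Tendsto (fun m => α + x (m + j)) U (𝓝 (α + y j)) := (hy j).const_add α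
    have h3 : (fun m => x (m + (j + 3)) * (A + x (m + (j + 2)))) = fun m => α + x (m + j) := by
      funext m
      have := sol_rel hA0 hα0 hx (m + j)
      rw [← this]
      rfl
    rw [h3] at h1
    exact tendsto_nhds_unique h1 h2
  have hI0 : 0 ≤ I := (hClK hI).1
  have hIS : I ≤ S := hImin hS
  -- the minimum
  have hIrel : α ≤ I * (S - (1 - A)) := by
    obtain ⟨U, y, hy5, hy, hyb⟩ := hlim I hI
    have h1 := hrel U y hy 2
    rw [hy5] at h1
    have h2 := (hyb 2).1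
    have h3 := (hyb 4).2
    have h4 : I * (A + y 4) ≤ I * (A + S) := mul_le_mul_of_nonneg_left (by linarith) hI0
    have h5 : I * (S - (1 - A)) = I * (A + S) - I := by ring
    rw [h5]
    linarith
  have hIpos : 0 < I := by
    rcases hI0.eq_or_lt with h | h
    · rw [← h, zero_mul] at hIrel; linarith
    · exact h
  have hSpos : 0 < S := lt_of_lt_of_le hIpos hIS
  -- the maximum
  have hSle : S * (S - (1 - A)) ≤ α := by
    obtain ⟨U, y, hy5, hy, hyb⟩ := hlim S hS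
    have h1 := hrel U y hy 2
    have h2 := hrel U y hy 1
    have h3 := hrel U y hy 0
    rw [hy5] at h1
    exact core (e := 1 - A) (y1 := y 4) (y2 := y 3) (y3 := y 2) (y4 := y 1) (y5 := y 0)
      (by linarith) (by linarith) hα hSpos hIpos
      (by rw [sub_sub_cancel]; exact h1) (by rw [sub_sub_cancel]; exact h2)
      (by rw [sub_sub_cancel]; exact h3) (hyb 4).1 (hyb 3).1 (hyb 2).2 (hyb 1).1 (hyb 0).2 hIrel
  have hD : 0 < S - (1 - A) := by
    by_contra hneg
    rw [not_lt] at hneg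
    have := mul_nonpos_of_nonneg_of_nonpos hI0 hneg
    linarith
  have hIeqS : I = S := by
    apply le_antisymm hIS
    have h1 : S * (S - (1 - A)) ≤ I * (S - (1 - A)) := hSle.trans hIrel
    exact le_of_mul_le_mul_right h1 hD
  have hSeq : S * (S - (1 - A)) = α := by
    apply le_antisymm hSle
    rw [hIeqS] at hIrel
    exact hIrel
  have hSx : S = equil A α := by
    have hsq : √((1 - A) ^ 2 + 4 * α) = 2 * S - (1 - A) := by
      have e1 : (1 - A) ^ 2 + 4 * α = (2 * S - (1 - A)) ^ 2 := by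
        rw [← hSeq]; ring
      rw [e1, Real.sqrt_sq]
      linarith
    unfold equil
    rw [hsq]; ring
  refine hK.tendsto_nhds_of_unique_mapClusterPt hmem ?_
  intro c _ hc
  have h1 : I ≤ c := hImin hc
  have h2 : c ≤ S := hSmax hc
  rw [← hSx]
  linarith

end Dynamics

lemma one_lt_alphaPlus {A : ℝ} (hA : 0 < A) (hA1 : A < 1) : 1 < alphaPlus A := by
  have h : A < √(5 * A ^ 2 - 4 * A ^ 3) := by
    apply Real.lt_sqrt_of_sq_lt
    have : 0 < 4 * A ^ 2 * (1 - A) := by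
      have : 0 < 1 - A := by linarith
      positivity
    nlinarith
  unfold alphaPlus
  linarith

/-- For every `A ∈ [4/5, 1)` and every `α ≥ 1` every solution with nonnegative initial values
converges to the equilibrium. Here `α₊(A) > 1`, so every `A ∈ [4/5, 1)` and every
`α ∈ [1, α₊(A))` is a counterexample to the assertion in Q1. -/
theorem result (A : ℝ) (hA : 4 / 5 ≤ A) (hA1 : A < 1) :
    1 < alphaPlus A ∧
      ∀ α : ℝ, 1 ≤ α → ∀ x : ℕ → ℝ, IsSolution A α x → Tendsto x atTop (𝓝 (equil A α)) :=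
  ⟨one_lt_alphaPlus (by linarith) hA1, fun _ hα _ hx => attract hA hA1 hα hx⟩

end Pool.Agent.Results.MP_efe010_an.Attractive
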